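import Pool.Agent.Helper41.LD4.Defs
import Pool.Agent.Helper8.LD3.Nb3

/-!
# Project LD4, block N1: children with a boundary of the grid in the image at an old time
-/

set_option autoImplicit false

namespace Pool.Agent.Helper8.LD4

open Set MeasureTheory Filter Topology
open Pool.Agent.Helper41.LD3 (lin Geo)
open Pool.Agent.Helper41.LD4

variable {y c : ℕ → ℝ} {β : ℝ} {N₀ : ℕ}

/-- the number of the windows with a boundary at one time -/
lemma card_grid {U : ℝ → ℝ} {a ℓ : ℝ} (hℓ : 0 < ℓ) (hU : MonotoneOn U (Icc a (a + ℓ))) (N₀ : ℕ) {B : ℕ} (hB : 1 ≤ B) :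
    (((Finset.range B).filter fun b : ℕ => ⌊(N₀ : ℝ) * U (a + b * (ℓ / B))⌋ <
      ⌊(N₀ : ℝ) * U (a + (b + 1 : ℕ) * (ℓ / B))⌋).card : ℝ) ≤ N₀ * (U (a + ℓ) - U a) + 1 := by
  have hB0 : (0 : ℝ) < B := by exact_mod_cast hB
  have hδ : 0 < ℓ / B := by positivity
  have hmem : ∀ b : ℕ, b ≤ B → a + b * (ℓ / B) ∈ Icc a (a + ℓ) := by
    intro b hb
    have h1 : (b : ℝ) ≤ B := by exact_mod_cast hb
    have h2 : (b : ℝ) * (ℓ / B) ≤ B * (ℓ / B) := mul_le_mul_of_nonneg_right h1 hδ.le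
    rw [mul_div_cancel₀ _ hB0.ne'] at h2
    have h3 : 0 ≤ (b : ℝ) * (ℓ / B) := by positivity
    constructor <;> linarith
  set v : ℕ → ℤ := fun b => ⌊(N₀ : ℝ) * U (a + b * (ℓ / B))⌋ with hv
  have hmono : ∀ b, b < B → v b ≤ v (b + 1) := by
    intro b hb
    refine Int.floor_le_floor (mul_le_mul_of_nonneg_left (hU (hmem b hb.le) (hmem (b + 1) hb) ?_) (by positivity))
    push_cast
    nlinarith
  have h1 : (((Finset.range B).filter fun b : ℕ => v b < v (b + 1)).card : ℤ) ≤ v B - v 0 := by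
    calc (((Finset.range B).filter fun b : ℕ => v b < v (b + 1)).card : ℤ)
        = ∑ b ∈ (Finset.range B).filter fun b : ℕ => v b < v (b + 1), (1 : ℤ) := by simp
      _ ≤ ∑ b ∈ (Finset.range B).filter fun b : ℕ => v b < v (b + 1), (v (b + 1) - v b) := by
          refine Finset.sum_le_sum fun b hb => ?_
          have := (Finset.mem_filter.1 hb).2
          omega
      _ ≤ ∑ b ∈ Finset.range B, (v (b + 1) - v b) := by
          refine Finset.sum_le_sum_of_subset_of_nonneg (Finset.filter_subset _ _) fun b hb _ => ?_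
          have := hmono b (Finset.mem_range.1 hb)
          omega
      _ = v B - v 0 := Finset.sum_range_sub v B
  have h2 : (v B : ℝ) ≤ N₀ * U (a + ℓ) := by
    have e : a + (B : ℝ) * (ℓ / B) = a + ℓ := by
      rw [mul_div_cancel₀ _ hB0.ne']
    simp only [hv]
    rw [e]
    exact Int.floor_le _
  have h3 : (N₀ : ℝ) * U a - 1 ≤ v 0 := by
    have := Int.lt_floor_add_one ((N₀ : ℝ) * U (a + ((0 : ℕ) : ℝ) * (ℓ / B)))
    simp only [hv]
    rw [Nat.cast_zero, zero_mul, add_zero] at this ⊢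
    linarith
  have h4 : (((Finset.range B).filter fun b : ℕ => v b < v (b + 1)).card : ℝ) ≤ v B - v 0 := by exact_mod_cast h1
  calc _ ≤ (v B : ℝ) - v 0 := h4
    _ ≤ _ := by linarith

open Classical in
/-- N1: children with a boundary of the grid in the image at an old time -/
theorem nb4 (hy : Geo y β) {a ℓ : ℝ} (hℓ : 0 < ℓ) {B : ℕ} (hB : 1 ≤ B) (hN₀ : 1 ≤ N₀) {n r : ℕ} (hn : ∀ j < n, y j * (ℓ / B) ≤ 1) :
    (((Finset.range B).filter fun b : ℕ => ¬ NBg (lin y c) n r N₀ (a + b * (ℓ / B)) (ℓ / B)).card : ℝ) ≤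
      N₀ * (β / (β - 1)) * β⁻¹ ^ r * B + n := by
  have hβ := hy.hβ
  have hβ0 : 0 < β := by linarith
  have hβ1 : 0 < β - 1 := by linarith
  have hB0 : (0 : ℝ) < B := by exact_mod_cast hB
  have hδ : 0 < ℓ / B := by positivity
  have hmono : ∀ j : ℕ, Monotone (lin y c j) := by
    intro j x z hxz
    unfold lin
    have := mul_le_mul_of_nonneg_left hxz (hy.pos j).le
    linarith
  rcases Nat.lt_or_ge r n with hr | hr
  swap
  · have h0 : ((Finset.range B).filter fun b : ℕ => ¬ NBg (lin y c) n r N₀ (a + b * (ℓ / B)) (ℓ / B)) = ∅ := by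
      refine Finset.filter_eq_empty_iff.2 fun b _ hb => hb ?_
      intro j hj
      omega
    rw [h0, Finset.card_empty, Nat.cast_zero]
    positivity
  have hsub : ((Finset.range B).filter fun b : ℕ => ¬ NBg (lin y c) n r N₀ (a + b * (ℓ / B)) (ℓ / B)) ⊆
      (Finset.range (n - r)).biUnion fun j => (Finset.range B).filter fun b : ℕ =>
        ⌊(N₀ : ℝ) * lin y c j (a + b * (ℓ / B))⌋ < ⌊(N₀ : ℝ) * lin y c j (a + (b + 1 : ℕ) * (ℓ / B))⌋ := by
    intro b hb
    rw [Finset.mem_filter] at hb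
    obtain ⟨hb1, hb2⟩ := hb
    unfold NBg at hb2
    push Not at hb2
    obtain ⟨j, hj, x, hx, hne⟩ := hb2
    rw [Finset.mem_biUnion]
    refine ⟨j, Finset.mem_range.2 (by omega), Finset.mem_filter.2 ⟨hb1, ?_⟩⟩
    have h2K : (0 : ℝ) ≤ N₀ := by positivity
    have h1 : ⌊(N₀ : ℝ) * lin y c j (a + b * (ℓ / B))⌋ ≤ ⌊(N₀ : ℝ) * lin y c j x⌋ :=
      Int.floor_le_floor (mul_le_mul_of_nonneg_left (hmono j hx.1) h2K)
    have h2 : ⌊(N₀ : ℝ) * lin y c j x⌋ ≤ ⌊(N₀ : ℝ) * lin y c j (a + (b + 1 : ℕ) * (ℓ / B))⌋ := by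
      refine Int.floor_le_floor (mul_le_mul_of_nonneg_left (hmono j ?_) h2K)
      have h3 : a + ((b + 1 : ℕ) : ℝ) * (ℓ / B) = a + b * (ℓ / B) + ℓ / B := by
        push_cast
        ring
      rw [h3]
      exact hx.2
    exact (lt_of_le_of_ne h1 (Ne.symm hne)).trans_le h2
  have hone : ∀ j ∈ Finset.range (n - r), (((Finset.range B).filter fun b : ℕ =>
      ⌊(N₀ : ℝ) * lin y c j (a + b * (ℓ / B))⌋ < ⌊(N₀ : ℝ) * lin y c j (a + (b + 1 : ℕ) * (ℓ / B))⌋).card : ℝ) ≤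
      N₀ * B * β⁻¹ ^ (n - 1 - j) + 1 := by
    intro j hj
    rw [Finset.mem_range] at hj
    have h1 := card_grid hℓ ((hmono j).monotoneOn (Icc a (a + ℓ))) N₀ hB
    refine h1.trans ?_
    have h2 : lin y c j (a + ℓ) - lin y c j a = y j * ℓ := by
      unfold lin
      ring
    rw [h2]
    have h3 : y j * ℓ ≤ B * β⁻¹ ^ (n - 1 - j) := by
      have h4 := Pool.Agent.Helper8.LD3.geo_le hy (show j ≤ n - 1 by omega)
      have h5 := hn (n - 1) (by omega)
      have h6 : y (n - 1) * ℓ ≤ B := by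
        rw [← mul_div_assoc, div_le_one hB0] at h5
        exact h5
      calc y j * ℓ ≤ (β⁻¹ ^ (n - 1 - j) * y (n - 1)) * ℓ := mul_le_mul_of_nonneg_right h4 hℓ.le
        _ = β⁻¹ ^ (n - 1 - j) * (y (n - 1) * ℓ) := by ring
        _ ≤ β⁻¹ ^ (n - 1 - j) * B := mul_le_mul_of_nonneg_left h6 (by positivity)
        _ = _ := mul_comm _ _
    have h4 := mul_le_mul_of_nonneg_left h3 (by positivity : (0 : ℝ) ≤ N₀)
    linarith
  have hcard : (((Finset.range B).filter fun b : ℕ => ¬ NBg (lin y c) n r N₀ (a + b * (ℓ / B)) (ℓ / B)).card : ℝ) ≤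
      ∑ j ∈ Finset.range (n - r), (N₀ * B * β⁻¹ ^ (n - 1 - j) + 1) := by
    have h1 := (Finset.card_le_card hsub).trans Finset.card_biUnion_le
    calc _ ≤ ((∑ j ∈ Finset.range (n - r), ((Finset.range B).filter fun b : ℕ =>
        ⌊(N₀ : ℝ) * lin y c j (a + b * (ℓ / B))⌋ < ⌊(N₀ : ℝ) * lin y c j (a + (b + 1 : ℕ) * (ℓ / B))⌋).card : ℕ) : ℝ) := by
          exact_mod_cast h1
      _ ≤ _ := by
          rw [Nat.cast_sum]
          exact Finset.sum_le_sum hone
  refine hcard.trans ?_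
  rw [Finset.sum_add_distrib]
  refine add_le_add ?_ ?_
  · rw [← Finset.mul_sum]
    calc N₀ * B * ∑ j ∈ Finset.range (n - r), β⁻¹ ^ (n - 1 - j) ≤ N₀ * B * (β / (β - 1) * β⁻¹ ^ r) :=
          mul_le_mul_of_nonneg_left (Pool.Agent.Helper8.LD3.geom_le hβ n r hr) (by positivity)
      _ = _ := by ring
  · rw [Finset.sum_const, Finset.card_range, nsmul_eq_mul, mul_one]
    exact_mod_cast Nat.sub_le n r

end Pool.Agent.Helper8.LD4
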